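import Mathlib
import Pool.Agent.H95R2.BG.Final2

/-! `DHL[49,2]`: every admissible 49-tuple contains two primes for many `n`, with no further prime in between. -/

theorem Pool.Agent.Results.MP_8923e7_nt.AnyFortyNine.aux {P : ℕ → Prop} {_ : DecidablePred P} {x c : ℝ} (hx : 0 ≤ x)
    (h : c ≤ (((Finset.Icc 1 ⌊x⌋₊).filter (fun n : ℕ => P n)).card : ℝ)) :
    c ≤ (Set.ncard {n : ℕ | 1 ≤ n ∧ (n : ℝ) ≤ x ∧ P n} : ℝ) := by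
  have hS : {n : ℕ | 1 ≤ n ∧ (n : ℝ) ≤ x ∧ P n} =
      (((Finset.Icc 1 ⌊x⌋₊).filter (fun n : ℕ => P n) : Finset ℕ) : Set ℕ) := by
    ext n
    simp only [Set.mem_ofPred_eq, Finset.coe_filter, Finset.mem_Icc, Nat.le_floor_iff hx, and_assoc]
  rw [hS, Set.ncard_coe_finset]
  exact h

theorem Pool.Agent.Results.MP_8923e7_nt.AnyFortyNine.result :
    ∀ a : Fin 49 → ℤ, Function.Injective a →
      (∀ p : ℕ, p.Prime → ∃ r : ℤ, ∀ i, ¬ (p : ℤ) ∣ r + a i) →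
      ∀ ε : ℝ, 0 < ε → ∀ᶠ x : ℝ in Filter.atTop,
        x ^ (1 - ε) ≤ (Set.ncard {n : ℕ | 1 ≤ n ∧ (n : ℝ) ≤ x ∧
          (∃ i j, i ≠ j ∧ ∃ p q : ℕ, p.Prime ∧ q.Prime ∧ (p : ℤ) = n + a i ∧ (q : ℤ) = n + a j) ∧
          ∀ p : ℕ, p.Prime → (∃ i j, (n : ℤ) + a i ≤ p ∧ (p : ℤ) ≤ n + a j) → ∃ i, (p : ℤ) = n + a i} : ℝ) := by
  intro a ha hadm ε hε
  filter_upwards [Pool.Agent.H95R2.BG.dhl49_consecutive a ha hadm ε hε, Filter.eventually_ge_atTop (0 : ℝ)] with x h hx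
  exact Pool.Agent.Results.MP_8923e7_nt.AnyFortyNine.aux hx h
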