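import Mathlib
import Pool.Agent.H361R2.InfCor

/-! Infinite exact prime patterns of near-logarithmic size in every infinite admissible set. -/

theorem Pool.Agent.Results.MP_8923e7_nt.InfinitePatterns.result :
    ∀ h : ℕ → ℕ, Function.Injective h →
      (∀ p : ℕ, p.Prime → ∃ r : ℕ, ∀ i, ¬ p ∣ r + h i) →
      ∀ ε : ℝ, 0 < ε → ∃ I : Set ℕ,
        (∃ᶠ X : ℕ in Filter.atTop, (Real.log X) ^ (1 - ε) ≤ ((I ∩ Set.Iio X).ncard : ℝ)) ∧
        ∀ M : ℕ, {n : ℕ | ∀ j ≤ M, (Nat.Prime (n + j) ↔ ∃ i ∈ I, h i = j)}.Infinite :=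
  fun h hinj hadm ε hε => Pool.Agent.H361R2.Inf.shifts_quant h hinj hadm ε hε
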