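import Mathlib
import Pool.Agent.H373R2.T7.Tuple4

/-!
The quantitative prime k-tuples conjecture for almost all vectors of polynomial shifts: for arbitrary fixed
nonconstant polynomials `f_1, ..., f_k` with integer coefficients and positive leading coefficients, of degrees `d_i`,
and boxes `1 ≤ m_i ≤ x_i` with `x_i ^ d_i` of the order of magnitude of `N`, the asymptotic formula of Hardy and
Littlewood for the primes `p ≤ N` such that all `p + f_i(m_i)` are prime holds, with an error smaller than any power of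
the logarithm, outside an exceptional set of vectors `m` which is also smaller than any power of the logarithm.
-/

namespace Pool.Agent.Results.MP_8923e7_nt.PolynomialShifts
open Finset Polynomial Pool.Agent.H373R2.T7

open Classical in
theorem result (k : ℕ) (hk : 1 ≤ k) (f : Fin k → ℤ[X]) (hf : ∀ i, 1 ≤ (f i).natDegree)
    (hl : ∀ i, 0 < (f i).leadingCoeff) (B : ℕ) (hB : 1 ≤ B) (U : ℕ) :
    (∃ c : ℝ, 0 < c ∧ ∀ a : Fin k → ℤ, Admissible a → ∀ S : ℝ,
      Filter.Tendsto (fun z => singZ a z) Filter.atTop (nhds S) → c ≤ S) ∧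
    ∃ N₀ : ℕ, ∀ N : ℕ, N₀ ≤ N → ∀ x : Fin k → ℕ,
      (∀ i, N ≤ B * x i ^ (f i).natDegree ∧ x i ^ (f i).natDegree ≤ B * N) →
      (((Fintype.piFinset (fun i => Icc 1 (x i))).filter (fun m : Fin k → ℕ =>
        ¬ ∃ S : ℝ, Filter.Tendsto (fun z => singZ (fun i => (f i).eval (m i : ℤ)) z) Filter.atTop (nhds S) ∧
          |tupleCount (fun i => (f i).eval (m i : ℤ)) N - S * N| ≤ (N : ℝ) / Real.log N ^ U)).card : ℝ) ≤
        (∏ i, (x i : ℝ)) / Real.log N ^ U := by
  obtain ⟨c, hc, h⟩ := singZ_low k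
  exact ⟨⟨c, hc, fun a ha S hS => ge_of_tendsto' hS (h a ha)⟩, tuples_full hk f hf hl B hB U⟩

end Pool.Agent.Results.MP_8923e7_nt.PolynomialShifts
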