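import Pool.Agent.H461R2.PD.Dens
import Pool.Agent.H362R2.CM.Final

/-!
# An explicit proportion of the tuples of shifts satisfies the prime tuples conjecture

Let `k ≥ 1`.  In every sufficiently large finite set `V` of natural numbers which misses a residue
class modulo every prime `p ≤ 4k + 1`, at least the proportion `1 / C(4k, k) - ε` of the
`(k+1)`-tuples of distinct elements `a_0, ..., a_k` is such that `n + a_0, ..., n + a_k` are all
prime for infinitely many `n`.
-/

namespace Pool.Agent.Results.MP_8923e7_nt.TupleProportion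

open Pool.Agent.H461R2.PD

theorem result (k : ℕ) (ε : ℝ) (hε : 0 < ε) : ∃ n₀ : ℕ, ∀ V : Finset ℕ,
    (∀ p : ℕ, p ≤ 4 * k + 1 → p.Prime → ∃ r : ℕ, ∀ v ∈ V, ¬ v ≡ r [MOD p]) → n₀ ≤ V.card →
    (1 / ((4 * k).choose k : ℝ) - ε) * (V.card : ℝ) ^ (k + 1) ≤
      ({a : Fin (k + 1) → ℕ | (∀ i, a i ∈ V) ∧ Function.Injective a ∧
        {n : ℕ | ∀ i, (n + a i).Prime}.Infinite}.ncard : ℝ) := by
  obtain ⟨n₀, hn₀⟩ := tuples Pool.Agent.H362R2.CM.quarter k hε
  refine ⟨n₀, fun V hV hcard => ?_⟩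
  have h := hn₀ V hV hcard
  have e : {a : Fin (k + 1) → ℕ | (∀ i, a i ∈ V) ∧ Function.Injective a ∧
      {n : ℕ | ∀ i, (n + a i).Prime}.Infinite} = (good (k + 1) V : Set (Fin (k + 1) → ℕ)) := by
    ext a
    rw [good, Finset.coe_filter, Set.mem_ofPred_eq, Set.mem_ofPred_eq, Fintype.mem_piFinset]
    exact Iff.rfl
  rw [e, Set.ncard_coe_finset]
  exact h

end Pool.Agent.Results.MP_8923e7_nt.TupleProportion
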